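import Pool.Agent.Helper19.RD.Stmts8

set_option autoImplicit false

namespace Pool.Agent.Helper77.RD8

open Finset Pool.Agent.Helper18.RD Pool.Agent.Helper19.RD

theorem jac_prod (a : ℤ) {n : ℕ} (s : Fin n → ℕ) (S : Finset (Fin n)) (hs : ∀ i, s i ≠ 0) :
    jacobiSym a (∏ i ∈ S, s i) = ∏ i ∈ S, jacobiSym a (s i) := by
  classical
  induction S using Finset.induction_on with
  | empty => rw [prod_empty, prod_empty, jacobiSym.one_right]
  | insert i S hi ih =>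
    rw [prod_insert hi, prod_insert hi,
      jacobiSym.mul_right' a (hs i) (prod_ne_zero_iff.2 fun j _ => hs j), ih]

theorem nsq_core (hWL : ST_WL1) (N K z x : ℕ) (J U : Finset ℕ) (d : ℕ → ℕ → ℤ) (W : ℝ)
    (_hN : 1 ≤ N) (hK : 1 ≤ K) (hz : 1 ≤ z) (hx : 1 ≤ x) (hW : 0 ≤ W)
    (hd : ∀ i ∈ J, ∀ j ∈ J, i ≠ j → 1 ≤ d i j ∧ d i j ≤ 2 * N)
    (hU : ∀ p ∈ U, p.Prime ∧ p ≠ 2 ∧ z ≤ p ∧ p ≤ x) (hV : 0 < VV U)
    (hchi : ∀ t ∈ T4 J, VV U * (1 - 1 / (2 * K)) ≤ ∑ p ∈ U, (jacobiSym (cyc d t) p : ℝ) / p)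
    (hcl : ∀ t0 ∈ TN J d,
      (((T4 J).filter (fun t => IsSquare (cyc d t * cyc d t0))).card : ℝ) ≤ W)
    (hsm : (K : ℝ) ^ K * (2048 * (N : ℝ) ^ 8 / (z : ℝ) ^ K) ≤ VV U ^ K / 8) :
    ((TN J d).card : ℝ) ≤ 8 * (K : ℝ) ^ K * (1 + K * Real.log x) * W / VV U ^ K := by
  classical
  obtain ⟨T, hT⟩ : ∃ T, T = TN J d := ⟨_, rfl⟩
  obtain ⟨Y, hY⟩ : ∃ Y : ℕ × ℕ × ℕ × ℕ → ℤ, Y = cyc d := ⟨_, rfl⟩
  obtain ⟨V, hVV⟩ : ∃ V : ℝ, V = VV U := ⟨_, rfl⟩
  have hTT : ∀ t ∈ T, t ∈ T4 J := by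
    intro t ht
    rw [hT] at ht
    unfold TN at ht
    exact (mem_filter.1 ht).1
  have hYb : ∀ t ∈ T, Y t ≠ 0 ∧ |Y t| ≤ ((16 * N ^ 4 : ℕ) : ℤ) := by
    intro t ht
    have ht4 := hTT t ht
    unfold T4 at ht4
    rw [mem_filter, mem_product, mem_product, mem_product] at ht4
    obtain ⟨⟨h1, h2, h3, h4⟩, h5, h6, h7, h8⟩ := ht4
    have e1 := hd _ h1 _ h3 h5
    have e2 := hd _ h1 _ h4 h6
    have e3 := hd _ h2 _ h3 h7
    have e4 := hd _ h2 _ h4 h8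
    rw [hY]
    unfold cyc
    have a1 : |d t.1 t.2.2.1| ≤ 2 * N := by rw [abs_of_nonneg (by linarith [e1.1])]; exact e1.2
    have a2 : |d t.1 t.2.2.2| ≤ 2 * N := by rw [abs_of_nonneg (by linarith [e2.1])]; exact e2.2
    have a3 : |d t.2.1 t.2.2.1| ≤ 2 * N := by rw [abs_of_nonneg (by linarith [e3.1])]; exact e3.2
    have a4 : |d t.2.1 t.2.2.2| ≤ 2 * N := by rw [abs_of_nonneg (by linarith [e4.1])]; exact e4.2
    have b1 : d t.1 t.2.2.1 ≠ 0 := by have := e1.1; omega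
    have b2 : d t.1 t.2.2.2 ≠ 0 := by have := e2.1; omega
    have b3 : d t.2.1 t.2.2.1 ≠ 0 := by have := e3.1; omega
    have b4 : d t.2.1 t.2.2.2 ≠ 0 := by have := e4.1; omega
    refine ⟨mul_ne_zero (mul_ne_zero (mul_ne_zero b1 b2) b3) b4, ?_⟩
    rw [abs_mul, abs_mul, abs_mul]
    have h9 : (0 : ℤ) ≤ 2 * N := by positivity
    calc |d t.1 t.2.2.1| * |d t.1 t.2.2.2| * |d t.2.1 t.2.2.1| * |d t.2.1 t.2.2.2| ≤
        (2 * N) * (2 * N) * (2 * N) * (2 * N) := by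
          apply mul_le_mul _ a4 (abs_nonneg _) (by positivity)
          apply mul_le_mul _ a3 (abs_nonneg _) (by positivity)
          exact mul_le_mul a1 a2 (abs_nonneg _) (by positivity)
      _ = ((16 * N ^ 4 : ℕ) : ℤ) := by push_cast; ring
  obtain ⟨P, hP⟩ : ∃ P : Finset (Fin K → ℕ), P = Fintype.piFinset (fun _ : Fin K => U) :=
    ⟨_, rfl⟩
  obtain ⟨w, hw⟩ : ∃ w : (Fin K → ℕ) → ℝ, ∀ s, w s = ∏ i, 1 / (s i : ℝ) :=
    ⟨fun s => ∏ i, 1 / (s i : ℝ), fun _ => rfl⟩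
  obtain ⟨G, hG⟩ : ∃ G : (Fin K → ℕ) → ℝ, ∀ s, G s = ∑ a ∈ T, (jacobiSym (Y a) (∏ i, s i) : ℝ) :=
    ⟨fun s => ∑ a ∈ T, (jacobiSym (Y a) (∏ i, s i) : ℝ), fun _ => rfl⟩
  have hw0 : ∀ s, 0 ≤ w s := by
    intro s
    rw [hw]
    exact prod_nonneg fun i _ => by positivity
  have hs0 : ∀ s ∈ P, ∀ i, s i ≠ 0 := by
    intro s hs i
    rw [hP, Fintype.mem_piFinset] at hs
    exact (hU _ (hs i)).1.ne_zero
  -- the total weight
  have hsum : ∑ s ∈ P, w s = V ^ K := by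
    have e2 : V ^ K = ∏ _i : Fin K, ∑ p ∈ U, (1 : ℝ) / p := by
      rw [prod_const, card_univ, Fintype.card_fin, hVV]
      rfl
    rw [e2, prod_univ_sum, ← hP]
    exact sum_congr rfl fun s _ => hw s
  -- the first moment
  have h3 : ∑ s ∈ P, w s * G s = ∑ a ∈ T, (∑ p ∈ U, (jacobiSym (Y a) p : ℝ) / p) ^ K := by
    have e1 : ∀ a ∈ T, (∑ p ∈ U, (jacobiSym (Y a) p : ℝ) / p) ^ K =
        ∑ s ∈ P, w s * (jacobiSym (Y a) (∏ i, s i) : ℝ) := by
      intro a _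
      have e2 : (∑ p ∈ U, (jacobiSym (Y a) p : ℝ) / p) ^ K =
          ∏ _i : Fin K, ∑ p ∈ U, (jacobiSym (Y a) p : ℝ) / p := by
        rw [prod_const, card_univ, Fintype.card_fin]
      rw [e2, prod_univ_sum, ← hP]
      refine sum_congr rfl fun s hs => ?_
      rw [jac_prod (Y a) s univ (hs0 s hs), hw]
      push_cast
      rw [← prod_mul_distrib]
      refine prod_congr rfl fun i _ => ?_
      ring
    rw [sum_congr rfl e1, sum_comm]
    refine sum_congr rfl fun s _ => ?_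
    rw [hG, mul_sum]
  have hKr : (1 : ℝ) ≤ K := by exact_mod_cast hK
  have hV0 : 0 < V := by rw [hVV]; exact hV
  have hVK : 0 < V ^ K := by positivity
  -- Bernoulli
  have hber : (1 : ℝ) / 2 ≤ (1 - 1 / (2 * K)) ^ K := by
    have hb := one_add_mul_le_pow (a := -(1 / (2 * (K : ℝ)))) (by
      have : 1 / (2 * (K : ℝ)) ≤ 1 := by
        rw [div_le_one (by positivity)]
        linarith
      linarith) K
    have e1 : (1 : ℝ) + K * (-(1 / (2 * (K : ℝ)))) = 1 / 2 := by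
      field_simp
      norm_num
    rw [e1] at hb
    calc (1 : ℝ) / 2 ≤ (1 + -(1 / (2 * (K : ℝ)))) ^ K := hb
      _ = _ := by rw [← sub_eq_add_neg]
  have hn0 : (0 : ℝ) ≤ 1 - 1 / (2 * K) := by
    have : 1 / (2 * (K : ℝ)) ≤ 1 := by
      rw [div_le_one (by positivity)]
      linarith
    linarith
  have h4 : (T.card : ℝ) * (V ^ K / 2) ≤ ∑ s ∈ P, w s * G s := by
    rw [h3]
    calc (T.card : ℝ) * (V ^ K / 2) = ∑ _a ∈ T, V ^ K / 2 := by rw [sum_const, nsmul_eq_mul]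
      _ ≤ _ := by
        refine sum_le_sum fun a ha => ?_
        have e1 := hchi a (hTT a ha)
        rw [← hVV, ← hY] at e1
        calc V ^ K / 2 = V ^ K * (1 / 2) := by ring
          _ ≤ V ^ K * (1 - 1 / (2 * K)) ^ K := mul_le_mul_of_nonneg_left hber hVK.le
          _ = (V * (1 - 1 / (2 * K))) ^ K := by rw [mul_pow]
          _ ≤ _ := pow_le_pow_left₀ (by positivity) e1 K
  -- Cauchy-Schwarz
  have h5 : (∑ s ∈ P, w s * G s) ^ 2 ≤ V ^ K * ∑ s ∈ P, w s * G s ^ 2 := by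
    have e1 := sum_mul_sq_le_sq_mul_sq P (fun s => Real.sqrt (w s))
      (fun s => Real.sqrt (w s) * G s)
    have e2 : ∑ s ∈ P, Real.sqrt (w s) * (Real.sqrt (w s) * G s) = ∑ s ∈ P, w s * G s := by
      refine sum_congr rfl fun s _ => ?_
      rw [← mul_assoc, Real.mul_self_sqrt (hw0 s)]
    have e3 : ∑ s ∈ P, Real.sqrt (w s) ^ 2 = V ^ K := by
      rw [← hsum]
      exact sum_congr rfl fun s _ => Real.sq_sqrt (hw0 s)
    have e4 : ∑ s ∈ P, (Real.sqrt (w s) * G s) ^ 2 = ∑ s ∈ P, w s * G s ^ 2 := by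
      refine sum_congr rfl fun s _ => ?_
      rw [mul_pow, Real.sq_sqrt (hw0 s)]
    rw [e2, e3, e4] at e1
    exact e1
  have h6 : ∑ s ∈ P, w s * G s ^ 2 ≤ (K : ℝ) ^ K * ((1 + K * Real.log x) *
      (((T ×ˢ T).filter (fun x => IsSquare (Y x.1 * Y x.2))).card : ℝ) +
      8 * ((16 * N ^ 4 : ℕ) : ℝ) ^ 2 / (z : ℝ) ^ K * (T.card : ℝ) ^ 2) := by
    have e1 := hWL (ℕ × ℕ × ℕ × ℕ) T Y (16 * N ^ 4) K z x U hK hz hx hYb hU
    refine le_trans (le_of_eq ?_) e1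
    rw [hP]
    refine sum_congr rfl fun s _ => ?_
    rw [hw, hG]
  -- the pairs
  have h7 : (((T ×ˢ T).filter (fun x => IsSquare (Y x.1 * Y x.2))).card : ℝ) ≤ T.card * W := by
    have e1 : ((T ×ˢ T).filter (fun x => IsSquare (Y x.1 * Y x.2))).card ≤
        ∑ b ∈ T, ((T4 J).filter (fun t => IsSquare (Y t * Y b))).card := by
      have e2 : ((T ×ˢ T).filter (fun x => IsSquare (Y x.1 * Y x.2))) ⊆
          T.biUnion (fun b => ((T4 J).filter (fun t => IsSquare (Y t * Y b))).image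
            (fun t => (t, b))) := by
        intro u hu
        rw [mem_filter, mem_product] at hu
        rw [mem_biUnion]
        refine ⟨u.2, hu.1.2, ?_⟩
        rw [mem_image]
        exact ⟨u.1, mem_filter.2 ⟨hTT _ hu.1.1, hu.2⟩, rfl⟩
      refine (card_le_card e2).trans (card_biUnion_le.trans ?_)
      exact sum_le_sum fun b _ => card_image_le
    calc (((T ×ˢ T).filter (fun x => IsSquare (Y x.1 * Y x.2))).card : ℝ) ≤
        ((∑ b ∈ T, ((T4 J).filter (fun t => IsSquare (Y t * Y b))).card : ℕ) : ℝ) := by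
          exact_mod_cast e1
      _ = ∑ b ∈ T, (((T4 J).filter (fun t => IsSquare (Y t * Y b))).card : ℝ) := by push_cast; rfl
      _ ≤ ∑ _b ∈ T, W := by
          refine sum_le_sum fun b hb => ?_
          rw [hT] at hb
          have := hcl b hb
          rw [hY]
          exact this
      _ = T.card * W := by rw [sum_const, nsmul_eq_mul]
  obtain ⟨n, hn⟩ : ∃ n : ℝ, n = T.card := ⟨_, rfl⟩
  have hn00 : 0 ≤ n := by rw [hn]; positivity
  have hlog : 0 ≤ 1 + K * Real.log x := by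
    have : 0 ≤ Real.log x := Real.log_natCast_nonneg x
    positivity
  have hKK : (0 : ℝ) < (K : ℝ) ^ K := by positivity
  have h8 : (K : ℝ) ^ K * (8 * ((16 * N ^ 4 : ℕ) : ℝ) ^ 2 / (z : ℝ) ^ K) ≤ V ^ K / 8 := by
    have e1 : 8 * ((16 * N ^ 4 : ℕ) : ℝ) ^ 2 = 2048 * (N : ℝ) ^ 8 := by push_cast; ring
    rw [e1, hVV]
    exact hsm
  rw [← hT, ← hVV, ← hn]
  rw [← hn] at h4 h7
  have h9 : ∑ s ∈ P, w s * G s ^ 2 ≤ (K : ℝ) ^ K * (1 + K * Real.log x) * (n * W) +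
      V ^ K / 8 * n ^ 2 := by
    refine h6.trans ?_
    rw [← hn, mul_add]
    have e1 : (K : ℝ) ^ K * ((1 + K * Real.log x) *
        (((T ×ˢ T).filter (fun x => IsSquare (Y x.1 * Y x.2))).card : ℝ)) ≤
        (K : ℝ) ^ K * (1 + K * Real.log x) * (n * W) := by
      rw [← mul_assoc]
      exact mul_le_mul_of_nonneg_left h7 (by positivity)
    have e2 : (K : ℝ) ^ K * (8 * ((16 * N ^ 4 : ℕ) : ℝ) ^ 2 / (z : ℝ) ^ K * n ^ 2) ≤
        V ^ K / 8 * n ^ 2 := by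
      rw [← mul_assoc]
      exact mul_le_mul_of_nonneg_right h8 (by positivity)
    exact add_le_add e1 e2
  have h10 : (n * (V ^ K / 2)) ^ 2 ≤ V ^ K * ((K : ℝ) ^ K * (1 + K * Real.log x) * (n * W) +
      V ^ K / 8 * n ^ 2) := by
    calc (n * (V ^ K / 2)) ^ 2 ≤ (∑ s ∈ P, w s * G s) ^ 2 :=
          pow_le_pow_left₀ (by positivity) h4 2
      _ ≤ V ^ K * ∑ s ∈ P, w s * G s ^ 2 := h5
      _ ≤ _ := mul_le_mul_of_nonneg_left h9 hVK.le
  rw [le_div_iff₀ hVK]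
  by_cases hn1 : n = 0
  · rw [hn1, zero_mul]
    positivity
  have hnp : 0 < n := lt_of_le_of_ne hn00 (Ne.symm hn1)
  have h11 : n * V ^ K * (n * V ^ K) ≤
      n * V ^ K * (8 * (K : ℝ) ^ K * (1 + K * Real.log x) * W) := by
    nlinarith [h10]
  exact le_of_mul_le_mul_left h11 (by positivity)

theorem st_NSQ (h1 : ST_WL1) : ST_NSQ :=
  fun N K z x J U d W hN hK hz hx hW => nsq_core h1 N K z x J U d W hN hK hz hx hW

end Pool.Agent.Helper77.RD8
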